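import Pool.Agent.Y142.ZS.Stm

/-!
# Project OI (helper282), job SFORM: even polynomials are characteristic polynomials of elements of
the symplectic Lie algebra
-/

set_option autoImplicit false

open Matrix Module Polynomial

namespace Pool.Agent.Q265.OI.SFORM

/-- the standard alternating matrix -/
def Jst (F : Type) [Field F] (n : ℕ) (i j : Fin n) : F :=
  if j = Fin.rev i then (if (i : ℕ) < j then 1 else -1) else 0

lemma rev_inner {m : ℕ} (i : Fin m) :
    Fin.rev (Fin.succ (Fin.castSucc i)) = Fin.succ (Fin.castSucc (Fin.rev i)) := by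
  ext
  simp only [Fin.val_rev, Fin.val_succ, Fin.val_castSucc]
  have := i.2
  omega

/-- a symplectic basis -/
theorem alt_basis {F : Type} [Field F] (n : ℕ) : ∀ (V : Type) [AddCommGroup V] [Module F V] [FiniteDimensional F V]
    (ω : V →ₗ[F] V →ₗ[F] F), (∀ x, ω x x = 0) → (∀ x, (∀ y, ω x y = 0) → x = 0) →
    finrank F V = n → ∃ v : Fin n → V, ∀ i j, ω (v i) (v j) = Jst F n i j := by
  induction n using Nat.twoStepInduction with
  | zero =>
    intro V _ _ _ ω _ _ _
    exact ⟨fun i => i.elim0, fun i => i.elim0⟩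
  | one =>
    intro V _ _ _ ω halt hnd hn
    exfalso
    obtain ⟨x, hx⟩ : ∃ x : V, x ≠ 0 := by
      have : Nontrivial V := Module.nontrivial_of_finrank_pos (R := F) (by omega)
      exact exists_ne 0
    apply hx
    apply hnd
    intro y
    obtain ⟨t, ht⟩ := (finrank_eq_one_iff_of_nonzero' x hx).mp hn y
    rw [← ht, map_smul, halt, smul_zero]
  | more m ih _ =>
    intro V _ _ _ ω halt hnd hn
    have hskew : ∀ x y, ω x y = -ω y x := by
      intro x y
      have h := halt (x + y)
      simp only [map_add, LinearMap.add_apply, halt, zero_add, add_zero] at h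
      exact eq_neg_of_add_eq_zero_right h
    obtain ⟨e, he⟩ : ∃ x : V, x ≠ 0 := by
      have : Nontrivial V := Module.nontrivial_of_finrank_pos (R := F) (by omega)
      exact exists_ne 0
    obtain ⟨f₀, hf₀⟩ : ∃ y, ω e y ≠ 0 := by
      by_contra h
      push Not at h
      exact he (hnd e h)
    obtain ⟨f, hf⟩ : ∃ f, ω e f = 1 :=
      ⟨(ω e f₀)⁻¹ • f₀, by rw [map_smul, smul_eq_mul, inv_mul_cancel₀ hf₀]⟩
    have hfe : ω f e = -1 := by rw [hskew, hf]
    -- the orthogonal complement
    let φ : V →ₗ[F] F × F := (ω e).prod (ω f)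
    have hφ : ∀ x, φ x = (ω e x, ω f x) := fun x => rfl
    have hsurj : LinearMap.range φ = ⊤ := by
      rw [LinearMap.range_eq_top]
      rintro ⟨a, b⟩
      refine ⟨a • f - b • e, ?_⟩
      rw [hφ]
      simp only [map_sub, map_smul, hf, hfe, halt, smul_eq_mul, mul_one, mul_zero, sub_zero,
        zero_sub, mul_neg, neg_neg]
    have hdim : finrank F (LinearMap.ker φ) = m := by
      have h1 := LinearMap.finrank_range_add_finrank_ker φ
      rw [hsurj, finrank_top, Module.finrank_prod, Module.finrank_self, hn] at h1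
      omega
    have hmem : ∀ x : V, x ∈ LinearMap.ker φ ↔ ω e x = 0 ∧ ω f x = 0 := by
      intro x
      rw [LinearMap.mem_ker, hφ, Prod.mk_eq_zero]
    -- the form on the complement
    let ω' : LinearMap.ker φ →ₗ[F] LinearMap.ker φ →ₗ[F] F :=
      (ω.domRestrict₁₂ (LinearMap.ker φ) (LinearMap.ker φ))
    have hω' : ∀ x y, ω' x y = ω (x : V) (y : V) := fun x y => rfl
    obtain ⟨w, hw⟩ := ih (LinearMap.ker φ) ω' (fun x => halt _) (by
      intro x hx
      apply Subtype.ext
      apply hnd
      intro y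
      obtain ⟨h1, h2⟩ := (hmem x).mp x.2
      have hy : y - ω e y • f + ω f y • e ∈ LinearMap.ker φ := by
        rw [hmem]
        constructor
        · simp only [map_add, map_sub, map_smul, hf, halt, smul_eq_mul, mul_one, mul_zero,
            add_zero, sub_self]
        · simp only [map_add, map_sub, map_smul, hfe, halt, smul_eq_mul, mul_zero, sub_zero,
            mul_neg, mul_one, add_neg_cancel]
      have h3 := hx ⟨_, hy⟩
      rw [hω'] at h3
      simp only [map_add, map_sub, map_smul, smul_eq_mul] at h3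
      rw [hskew (x : V) f, hskew (x : V) e, h1, h2] at h3
      simpa using h3) hdim
    have hwe : ∀ i, ω e (w i) = 0 := fun i => ((hmem _).mp (w i).2).1
    have hwf : ∀ i, ω f (w i) = 0 := fun i => ((hmem _).mp (w i).2).2
    have hwe' : ∀ i, ω (w i : V) e = 0 := fun i => by rw [hskew, hwe, neg_zero]
    have hwf' : ∀ i, ω (w i : V) f = 0 := fun i => by rw [hskew, hwf, neg_zero]
    refine ⟨Fin.cons e (Fin.snoc (fun i => (w i : V)) f), ?_⟩
    -- the three kinds of indices
    have hlast : (Fin.last (m + 1)) = Fin.succ (Fin.last m) := rfl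
    have hcase : ∀ i : Fin (m + 2), i = 0 ∨ i = Fin.succ (Fin.last m) ∨
        ∃ k : Fin m, i = Fin.succ (Fin.castSucc k) := by
      intro i
      refine Fin.cases (Or.inl rfl) (fun j => ?_) i
      refine Fin.lastCases (Or.inr (Or.inl rfl)) (fun k => ?_) j
      exact Or.inr (Or.inr ⟨k, rfl⟩)
    have v0 : (Fin.cons e (Fin.snoc (fun i => (w i : V)) f) : Fin (m + 2) → V) 0 = e :=
      Fin.cons_zero _ _
    have v1 : (Fin.cons e (Fin.snoc (fun i => (w i : V)) f) : Fin (m + 2) → V)
        (Fin.succ (Fin.last m)) = f := by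
      rw [Fin.cons_succ]
      exact Fin.snoc_last _ _
    have v2 : ∀ k : Fin m, (Fin.cons e (Fin.snoc (fun i => (w i : V)) f) : Fin (m + 2) → V)
        (Fin.succ (Fin.castSucc k)) = w k := by
      intro k
      rw [Fin.cons_succ]
      exact Fin.snoc_castSucc (α := fun _ => V) _ _ _
    have r0 : Fin.rev (0 : Fin (m + 2)) = Fin.succ (Fin.last m) := by
      ext
      simp
    have r1 : Fin.rev (Fin.succ (Fin.last m)) = (0 : Fin (m + 2)) := by
      ext
      simp
    have hJ : ∀ (N : ℕ) (i j : Fin N), Jst F N i j =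
        if j = Fin.rev i then (if (i : ℕ) < j then 1 else -1) else 0 := fun N i j => rfl
    intro i j
    rw [hJ]
    rcases hcase i with rfl | rfl | ⟨k, rfl⟩ <;> rcases hcase j with rfl | rfl | ⟨l, rfl⟩
    · rw [v0, halt, r0, if_neg (by
        intro h
        have := congrArg Fin.val h
        simp at this)]
    · rw [v0, v1, hf, r0, if_pos rfl, if_pos (by simp)]
    · rw [v0, v2, hwe, r0, if_neg (by
        intro h
        have := congrArg Fin.val h
        simp only [Fin.val_succ, Fin.val_castSucc, Fin.val_last] at this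
        have := l.2
        omega)]
    · rw [v0, v1, hfe, r1, if_pos rfl, if_neg (by simp)]
    · rw [v1, halt, r1, if_neg (by
        intro h
        have := congrArg Fin.val h
        simp at this)]
    · rw [v1, v2, hwf, r1, if_neg (by
        intro h
        have := congrArg Fin.val h
        simp at this)]
    · rw [v0, v2, hwe', rev_inner, if_neg (by
        intro h
        have := congrArg Fin.val h
        simp at this)]
    · rw [v1, v2, hwf', rev_inner, if_neg (by
        intro h
        have := congrArg Fin.val h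
        simp only [Fin.val_succ, Fin.val_castSucc, Fin.val_last] at this
        have := (Fin.rev k).2
        omega)]
    · rw [v2, v2, ← hω', hw, hJ, rev_inner]
      have h1 : (Fin.succ (Fin.castSucc l) = Fin.succ (Fin.castSucc (Fin.rev k))) ↔
          l = Fin.rev k := by
        rw [Fin.succ_inj, Fin.castSucc_inj]
      have h2 : ((Fin.succ (Fin.castSucc k) : Fin (m + 2)) : ℕ) < Fin.succ (Fin.castSucc l) ↔
          (k : ℕ) < l := by
        simp only [Fin.val_succ, Fin.val_castSucc]
        omega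
      simp only [h1, h2]


theorem Jst_rev {F : Type} [Field F] (n : ℕ) (j : Fin n) : Jst F n (Fin.rev j) j ≠ 0 := by
  unfold Jst
  rw [Fin.rev_rev, if_pos rfl]
  split_ifs
  · exact one_ne_zero
  · exact neg_ne_zero.mpr one_ne_zero

/-- a symplectic basis is linearly independent -/
theorem indep {F : Type} [Field F] {n : ℕ} {V : Type} [AddCommGroup V] [Module F V]
    (ω : V →ₗ[F] V →ₗ[F] F) (v : Fin n → V) (hv : ∀ i j, ω (v i) (v j) = Jst F n i j) :
    LinearIndependent F v := by
  rw [Fintype.linearIndependent_iff]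
  intro c hc i
  have h1 : ω (∑ k, c k • v k) (v (Fin.rev i)) = 0 := by rw [hc]; simp
  rw [map_sum, LinearMap.sum_apply] at h1
  rw [Finset.sum_eq_single i] at h1
  · rw [map_smul, LinearMap.smul_apply, hv, smul_eq_mul] at h1
    have h2 := Jst_rev (F := F) n (Fin.rev i)
    rw [Fin.rev_rev] at h2
    exact (mul_eq_zero.mp h1).resolve_right h2
  · intro k _ hk
    rw [map_smul, LinearMap.smul_apply, hv]
    have : Jst F n k (Fin.rev i) = 0 := if_neg fun h => hk (Fin.rev_injective h).symm
    rw [this, smul_zero]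
  · intro h
    exact absurd (Finset.mem_univ i) h

/-- nondegenerate alternating forms of the same dimension are isometric -/
theorem isometry {F : Type} [Field F] {n : ℕ} (V V' : Type) [AddCommGroup V] [Module F V]
    [FiniteDimensional F V] [AddCommGroup V'] [Module F V'] [FiniteDimensional F V']
    (ω : V →ₗ[F] V →ₗ[F] F) (ω' : V' →ₗ[F] V' →ₗ[F] F) (h1 : ∀ x, ω x x = 0)
    (h2 : ∀ x, (∀ y, ω x y = 0) → x = 0) (h1' : ∀ x, ω' x x = 0)
    (h2' : ∀ x, (∀ y, ω' x y = 0) → x = 0) (hn : finrank F V = n) (hn' : finrank F V' = n) :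
    ∃ e : V ≃ₗ[F] V', ∀ x y, ω' (e x) (e y) = ω x y := by
  obtain ⟨v, hv⟩ := alt_basis n V ω h1 h2 hn
  obtain ⟨v', hv'⟩ := alt_basis n V' ω' h1' h2' hn'
  let b := basisOfLinearIndependentOfCardEqFinrank' v (indep ω v hv) (by
    rw [Fintype.card_fin, hn])
  let b' := basisOfLinearIndependentOfCardEqFinrank' v' (indep ω' v' hv') (by
    rw [Fintype.card_fin, hn'])
  have hb : ∀ i, b i = v i := fun i => by
    simp [b]
  have hb' : ∀ i, b' i = v' i := fun i => by
    simp [b']
  let e : V ≃ₗ[F] V' := b.equiv b' (Equiv.refl _)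
  have he : ∀ i, e (b i) = b' i := fun i => by
    simp [e]
  refine ⟨e, ?_⟩
  have h : ω'.compl₁₂ (e : V →ₗ[F] V') (e : V →ₗ[F] V') = ω := by
    refine LinearMap.ext_basis b b fun i j => ?_
    rw [LinearMap.compl₁₂_apply]
    simp only [LinearEquiv.coe_coe]
    rw [he, he, hb', hb', hb, hb, hv, hv']
  intro x y
  rw [← h]
  rfl

/-! ### the model -/

section model

variable {F : Type} [Field F] {p : F[X]}

theorem aeval_neg (hc : p.comp (-X) = p) : aeval (-AdjoinRoot.root p) p = 0 := by
  have h1 : aeval (-AdjoinRoot.root p) p = aeval (AdjoinRoot.root p) (p.comp (-X)) := by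
    rw [aeval_comp]
    simp
  rw [h1, hc, AdjoinRoot.aeval_eq, AdjoinRoot.mk_self]

theorem eval_neg (hc : p.comp (-X) = p) :
    eval₂ (Algebra.ofId F (AdjoinRoot p) : F →+* AdjoinRoot p) (-AdjoinRoot.root p) p = 0 :=
  aeval_neg hc

/-- the involution -/
noncomputable def sg (hc : p.comp (-X) = p) : AdjoinRoot p →ₐ[F] AdjoinRoot p :=
  AdjoinRoot.liftAlgHom p (Algebra.ofId F (AdjoinRoot p)) (-AdjoinRoot.root p) (eval_neg hc)

theorem sg_mk (hc : p.comp (-X) = p) (f : F[X]) :
    sg hc (AdjoinRoot.mk p f) = AdjoinRoot.mk p (f.comp (-X)) := by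
  have h1 : sg hc (AdjoinRoot.mk p f) = aeval (-AdjoinRoot.root p) f := by
    unfold sg
    rw [AdjoinRoot.liftAlgHom_mk]
    rfl
  rw [h1, ← AdjoinRoot.aeval_eq, aeval_comp]
  simp

theorem sg_sg (hc : p.comp (-X) = p) (x : AdjoinRoot p) : sg hc (sg hc x) = x := by
  obtain ⟨f, rfl⟩ := AdjoinRoot.mk_surjective x
  rw [sg_mk, sg_mk, comp_neg_X_comp_neg_X]

theorem sg_root (hc : p.comp (-X) = p) : sg hc (AdjoinRoot.root p) = -AdjoinRoot.root p := by
  unfold sg
  rw [AdjoinRoot.liftAlgHom_root]

/-- the last coefficient -/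
noncomputable def sl (hp : p.Monic) (m : ℕ) : AdjoinRoot p →ₗ[F] F :=
  (lcoeff F m).comp (AdjoinRoot.modByMonicHom hp)

theorem sl_mk (hp : p.Monic) (m : ℕ) {f : F[X]} (hf : f.degree < p.degree) :
    sl hp m (AdjoinRoot.mk p f) = f.coeff m := by
  unfold sl
  rw [LinearMap.comp_apply, AdjoinRoot.modByMonicHom_mk, lcoeff_apply,
    (modByMonic_eq_self_iff hp).mpr hf]

theorem exists_rep (hp : p.Monic) (x : AdjoinRoot p) :
    ∃ f : F[X], f.degree < p.degree ∧ AdjoinRoot.mk p f = x := by
  obtain ⟨f, rfl⟩ := AdjoinRoot.mk_surjective x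
  refine ⟨f %ₘ p, degree_modByMonic_lt f hp, ?_⟩
  exact AdjoinRoot.mk_leftInverse hp (AdjoinRoot.mk p f)

theorem sl_sg (hp : p.Monic) (hc : p.comp (-X) = p) {m : ℕ} (hm : Odd m) (x : AdjoinRoot p) :
    sl hp m (sg hc x) = -sl hp m x := by
  obtain ⟨f, hf, rfl⟩ := exists_rep hp x
  rw [sg_mk, sl_mk hp m hf, sl_mk hp m (by rw [degree_comp_neg_X]; exact hf)]
  have h1 : (-X : F[X]) = C (-1) * X := by simp
  rw [h1, comp_C_mul_X_coeff, hm.neg_one_pow]
  ring

theorem sl_nondeg (hp : p.Monic) {m : ℕ} (hm : p.natDegree = m + 1) (x : AdjoinRoot p)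
    (h : ∀ y, sl hp m (x * y) = 0) : x = 0 := by
  obtain ⟨f, hf, rfl⟩ := exists_rep hp x
  by_contra hne
  have hf0 : f ≠ 0 := by
    rintro rfl
    exact hne (map_zero _)
  have hd : f.natDegree < m + 1 := by
    rw [← hm]
    exact natDegree_lt_natDegree hf0 hf
  have h1 := h (AdjoinRoot.mk p (X ^ (m - f.natDegree)))
  rw [← map_mul, sl_mk] at h1
  · have h2 : m = f.natDegree + (m - f.natDegree) := by omega
    have h3 : (f * X ^ (m - f.natDegree)).coeff m = f.leadingCoeff := by
      conv_lhs => rw [h2]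
      rw [show f.natDegree + (m - f.natDegree) - f.natDegree = m - f.natDegree by omega,
        coeff_mul_X_pow]
      rfl
    rw [h3] at h1
    exact hf0 (leadingCoeff_eq_zero.mp h1)
  · refine lt_of_le_of_lt degree_le_natDegree ?_
    rw [degree_eq_natDegree hp.ne_zero, hm, natDegree_mul_X_pow _ hf0]
    exact_mod_cast (by omega : f.natDegree + (m - f.natDegree) < m + 1)

/-- the form of the model -/
noncomputable def bf (hp : p.Monic) (hc : p.comp (-X) = p) (m : ℕ) :
    AdjoinRoot p →ₗ[F] AdjoinRoot p →ₗ[F] F :=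
  ((LinearMap.mul F (AdjoinRoot p)).compl₂ (sg hc).toLinearMap).compr₂ (sl hp m)

theorem bf_apply (hp : p.Monic) (hc : p.comp (-X) = p) (m : ℕ) (x y : AdjoinRoot p) :
    bf hp hc m x y = sl hp m (x * sg hc y) := rfl

end model

theorem skew_even {F : Type} [Field F] [CharZero F] {N : ℕ} {J : Matrix (Fin N) (Fin N) F}
    (hJ : Jᵀ = -J) (hd : J.det ≠ 0) : Even N := by
  have h1 : J.det = (-1) ^ N * J.det := by
    conv_lhs => rw [← Matrix.det_transpose, hJ, Matrix.det_neg, Fintype.card_fin]
  have h2 : (-1 : F) ^ N = 1 := by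
    have h3 : ((-1 : F) ^ N - 1) * J.det = 0 := by linear_combination -h1
    exact sub_eq_zero.mp ((mul_eq_zero.mp h3).resolve_right hd)
  by_contra h
  rw [Nat.not_even_iff_odd] at h
  rw [h.neg_one_pow] at h2
  norm_num at h2

/-- every even polynomial is the characteristic polynomial of an element of the symplectic
Lie algebra -/
theorem t : Pool.Agent.Y142.ZS.S_SFORM := by
  intro F _ _ N J p hJ hd hp hN hc
  have hev := skew_even hJ hd
  rcases Nat.eq_zero_or_pos N with h0 | hpos
  · subst h0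
    refine ⟨0, ?_, ?_⟩
    · unfold Pool.Agent.Y142.ZS.SpLie
      exact Subsingleton.elim _ _
    · rw [(Polynomial.Monic.natDegree_eq_zero hp).mp hN]
      exact Matrix.charpoly_isEmpty
  obtain ⟨m, rfl⟩ : ∃ m, N = m + 1 := ⟨N - 1, by omega⟩
  have hm : Odd m := by
    rw [← Nat.not_even_iff_odd]
    intro h
    exact (Nat.even_add_one.mp hev) h
  have hfin : FiniteDimensional F (AdjoinRoot p) := hp.finite_adjoinRoot
  have hrank : finrank F (AdjoinRoot p) = m + 1 := by
    rw [(AdjoinRoot.powerBasis hp.ne_zero).finrank, AdjoinRoot.powerBasis_dim, hN]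
  have hap : ∀ x y, Matrix.toBilin' J x y = x ⬝ᵥ J *ᵥ y := fun x y =>
    Matrix.toBilin'_apply' J x y
  obtain ⟨e, he⟩ := isometry (n := m + 1) (AdjoinRoot p) (Fin (m + 1) → F)
    (bf hp hc m) (Matrix.toBilin' J) (fun x => by
      rw [bf_apply]
      have h1 := sl_sg hp hc hm (x * sg hc x)
      rw [map_mul, sg_sg, mul_comm] at h1
      have h2 : (2 : F) * sl hp m (x * sg hc x) = 0 := by linear_combination h1
      exact (mul_eq_zero.mp h2).resolve_left two_ne_zero) (fun x hx => by
      refine sl_nondeg hp hN x fun y => ?_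
      have := hx (sg hc y)
      rwa [bf_apply, sg_sg] at this) (by
      intro x
      rw [hap]
      have h1 : x ⬝ᵥ J *ᵥ x = -(x ⬝ᵥ J *ᵥ x) := by
        conv_lhs => rw [Matrix.dotProduct_mulVec, ← Matrix.mulVec_transpose, hJ, dotProduct_comm,
          Matrix.neg_mulVec, dotProduct_neg]
      have h2 : (2 : F) * (x ⬝ᵥ J *ᵥ x) = 0 := by linear_combination h1
      exact (mul_eq_zero.mp h2).resolve_left two_ne_zero) (by
      intro x hx
      have h1 : Jᵀ *ᵥ x = 0 := by
        funext i
        have h2 := hx (Pi.single i 1)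
        rw [hap, Matrix.dotProduct_mulVec, ← Matrix.mulVec_transpose] at h2
        simpa using h2
      rw [hJ, Matrix.neg_mulVec, neg_eq_zero] at h1
      exact Matrix.eq_zero_of_mulVec_eq_zero hd h1) hrank (Module.finrank_fin_fun F)
  -- multiplication by the root
  let M : Module.End F (AdjoinRoot p) := LinearMap.mulLeft F (AdjoinRoot.root p)
  let T := LinearMap.toMatrix' (e.conj M)
  have hT : ∀ x, T *ᵥ x = e (AdjoinRoot.root p * e.symm x) := by
    intro x
    rw [← Matrix.toLin'_apply]
    simp only [T, Matrix.toLin'_toMatrix']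
    rfl
  have hskew : ∀ x y, (T *ᵥ x) ⬝ᵥ J *ᵥ y + x ⬝ᵥ J *ᵥ (T *ᵥ y) = 0 := by
    intro x y
    rw [← hap, ← hap, hT, hT]
    have h1 : Matrix.toBilin' J (e (AdjoinRoot.root p * e.symm x)) y =
        sl hp m (AdjoinRoot.root p * e.symm x * sg hc (e.symm y)) := by
      conv_lhs => rw [← e.apply_symm_apply y]
      rw [he, bf_apply]
    have h2 : Matrix.toBilin' J x (e (AdjoinRoot.root p * e.symm y)) =
        sl hp m (e.symm x * sg hc (AdjoinRoot.root p * e.symm y)) := by
      conv_lhs => rw [← e.apply_symm_apply x]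
      rw [he, bf_apply]
    rw [h1, h2, map_mul (sg hc), sg_root, ← map_add]
    have h3 : AdjoinRoot.root p * e.symm x * sg hc (e.symm y) +
        e.symm x * (-AdjoinRoot.root p * sg hc (e.symm y)) = 0 := by ring
    rw [h3, map_zero]
  refine ⟨T, ?_, ?_⟩
  · unfold Pool.Agent.Y142.ZS.SpLie
    ext i j
    have h1 := hskew (Pi.single i 1) (Pi.single j 1)
    rw [Matrix.zero_apply, ← h1, Matrix.add_apply]
    congr 1
    · rw [Matrix.mulVec_single_one, Matrix.mulVec_single_one, Matrix.mul_apply]
      rfl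
    · rw [Matrix.mulVec_mulVec, Matrix.mulVec_single_one, single_one_dotProduct]
      rfl
  · have h1 : T.charpoly = M.charpoly := by
      have h2 : T = LinearMap.toMatrix (Pi.basisFun F (Fin (m + 1)))
          (Pi.basisFun F (Fin (m + 1))) (e.conj M) := by
        simp only [T]
        rw [LinearMap.toMatrix_eq_toMatrix']
      rw [h2, LinearMap.charpoly_toMatrix, LinearEquiv.charpoly_conj]
    rw [h1]
    have h3 := charpoly_leftMulMatrix (AdjoinRoot.powerBasis hp.ne_zero)
    rw [AdjoinRoot.minpoly_powerBasis_gen_of_monic hp] at h3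
    refine Eq.trans ?_ h3
    rw [← LinearMap.charpoly_toMatrix M (AdjoinRoot.powerBasis hp.ne_zero).basis]
    rfl

end Pool.Agent.Q265.OI.SFORM
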