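import Pool.Agent.Y142.ZD.Stm
import Pool.Agent.Q265.OI.SFORM
import Pool.Agent.Q91.OI.FORM1

/-!
# Project OI (helper282), job FDA: skew maps with two ramified blocks
-/

set_option autoImplicit false

open Matrix Module Polynomial

namespace Pool.Agent.Q265.OI.FDA

open Pool.Agent.Q265.OI.SFORM (sg sl sg_mk sg_sg sg_root sl_mk exists_rep bf bf_apply)

/-- a family with invertible Gram matrix is linearly independent -/
theorem indepG {F : Type} [Field F] {κ V : Type} [Fintype κ] [DecidableEq κ] [AddCommGroup V]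
    [Module F V] (ω : V →ₗ[F] V →ₗ[F] F) (v : κ → V) (G G' : Matrix κ κ F)
    (hv : ∀ i j, ω (v i) (v j) = G i j) (hG : G * G' = 1) : LinearIndependent F v := by
  rw [Fintype.linearIndependent_iff]
  intro c hc
  have h1 : c ᵥ* G = 0 := by
    funext j
    have h2 : ω (∑ k, c k • v k) (v j) = 0 := by rw [hc]; simp
    rw [map_sum, LinearMap.sum_apply] at h2
    simp only [map_smul, LinearMap.smul_apply, hv, smul_eq_mul] at h2
    exact h2
  have h3 : c = 0 := by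
    calc c = c ᵥ* (1 : Matrix κ κ F) := (Matrix.vecMul_one c).symm
      _ = (c ᵥ* G) ᵥ* G' := by rw [← hG, Matrix.vecMul_vecMul]
      _ = 0 := by rw [h1, Matrix.zero_vecMul]
  intro i
  rw [h3]
  rfl

section core

variable {F : Type} [Field F]

/-- the polynomial -/
noncomputable def PP (n : ℕ) (c : F) : F[X] := X ^ (2 * (n + 1)) - C c

theorem PP_monic (n : ℕ) (c : F) : (PP n c).Monic := monic_X_pow_sub_C c (by omega)

theorem PP_deg (n : ℕ) (c : F) : (PP n c).natDegree = 2 * (n + 1) := natDegree_X_pow_sub_C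

theorem PP_even (n : ℕ) (c : F) : (PP n c).comp (-X) = PP n c := by
  unfold PP
  rw [sub_comp, X_pow_comp, C_comp, Even.neg_pow (by simp)]

/-- the linear functional -/
noncomputable def L (n : ℕ) (c : F) : AdjoinRoot (PP n c) →ₗ[F] F := sl (PP_monic n c) 0

theorem L_small (n : ℕ) (c : F) {k : ℕ} (hk : k < 2 * (n + 1)) :
    L n c (AdjoinRoot.root (PP n c) ^ k) = if k = 0 then 1 else 0 := by
  have h1 : AdjoinRoot.root (PP n c) ^ k = AdjoinRoot.mk (PP n c) (X ^ k) := by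
    rw [map_pow, AdjoinRoot.mk_X]
  unfold L
  rw [h1, sl_mk, coeff_X_pow]
  · simp only [eq_comm]
  · rw [degree_X_pow, degree_eq_natDegree (PP_monic n c).ne_zero, PP_deg]
    exact_mod_cast hk

theorem root_pow (n : ℕ) (c : F) :
    AdjoinRoot.root (PP n c) ^ (2 * (n + 1)) = algebraMap F (AdjoinRoot (PP n c)) c := by
  have h1 : AdjoinRoot.mk (PP n c) (PP n c) = 0 := AdjoinRoot.mk_self
  conv at h1 => lhs; arg 2; unfold PP
  rw [map_sub, map_pow, AdjoinRoot.mk_X, AdjoinRoot.mk_C] at h1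
  exact sub_eq_zero.mp h1

theorem L_pow (n : ℕ) (c : F) {k : ℕ} (hk : k < 4 * (n + 1)) :
    L n c (AdjoinRoot.root (PP n c) ^ k) =
      if k = 0 then 1 else if k = 2 * (n + 1) then c else 0 := by
  rcases lt_or_ge k (2 * (n + 1)) with h | h
  · rw [L_small n c h]
    have : k ≠ 2 * (n + 1) := h.ne
    simp [this]
  · obtain ⟨j, rfl⟩ := Nat.exists_eq_add_of_le h
    rw [pow_add, root_pow, ← Algebra.smul_def, map_smul, L_small n c (by omega), smul_eq_mul,
      if_neg (by omega : 2 * (n + 1) + j ≠ 0)]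
    by_cases hj : j = 0
    · subst hj
      simp
    · rw [if_neg hj, if_neg (by omega), mul_zero]

theorem L_sg (n : ℕ) (c : F) (x : AdjoinRoot (PP n c)) :
    L n c (sg (PP_even n c) x) = L n c x := by
  obtain ⟨f, hf, rfl⟩ := exists_rep (PP_monic n c) x
  unfold L
  rw [sg_mk, sl_mk _ _ hf, sl_mk _ _ (by rw [degree_comp_neg_X]; exact hf)]
  have h1 : (-X : F[X]) = C (-1) * X := by simp
  rw [h1, comp_C_mul_X_coeff, pow_zero, mul_one]

/-- the form -/
noncomputable def om (n : ℕ) (c d : F) :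
    AdjoinRoot (PP n c) →ₗ[F] AdjoinRoot (PP n c) →ₗ[F] F :=
  d • bf (PP_monic n c) (PP_even n c) 0

theorem om_apply (n : ℕ) (c d : F) (x y : AdjoinRoot (PP n c)) :
    om n c d x y = d * L n c (x * sg (PP_even n c) y) := rfl

theorem om_symm (n : ℕ) (c d : F) (x y : AdjoinRoot (PP n c)) :
    om n c d x y = om n c d y x := by
  rw [om_apply, om_apply, ← L_sg n c (x * _), map_mul, sg_sg, mul_comm y]

theorem om_root (n : ℕ) (c d : F) (x y : AdjoinRoot (PP n c)) :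
    om n c d x (AdjoinRoot.root (PP n c) * y) = -om n c d (AdjoinRoot.root (PP n c) * x) y := by
  rw [om_apply, om_apply, map_mul (sg _), sg_root]
  have h1 : x * (-AdjoinRoot.root (PP n c) * sg (PP_even n c) y) =
    -(AdjoinRoot.root (PP n c) * x * sg (PP_even n c) y) := by ring
  rw [h1, map_neg]
  ring

theorem om_pow (n : ℕ) (c d : F) (i j : ℕ) (h : i + j < 4 * (n + 1)) :
    om n c d (AdjoinRoot.root (PP n c) ^ i) (AdjoinRoot.root (PP n c) ^ j) =
      d * ((-1) ^ j * if i + j = 0 then 1 else if i + j = 2 * (n + 1) then c else 0) := by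
  rw [om_apply, map_pow, sg_root, ← L_pow n c h]
  congr 1
  have h1 : AdjoinRoot.root (PP n c) ^ i * (-AdjoinRoot.root (PP n c)) ^ j =
      ((-1 : F) ^ j) • AdjoinRoot.root (PP n c) ^ (i + j) := by
    rw [neg_pow, pow_add, Algebra.smul_def, map_pow, map_neg, map_one]
    ring
  rw [h1, map_smul, smul_eq_mul]

/-- the Gram matrix -/
def GG (n : ℕ) (d : Fin 2 → F) :
    Matrix ((Fin n ⊕ Fin n) ⊕ Fin 2) ((Fin n ⊕ Fin n) ⊕ Fin 2) F :=
  fromBlocks (fromBlocks 0 1 1 0) 0 0 (diagonal d)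

/-- the exponents -/
def ex (n : ℕ) : (Fin n ⊕ Fin n) ⊕ Fin 2 → ℕ
  | .inl (.inl i) => i + 1
  | .inl (.inr i) => 2 * n + 1 - i
  | .inr i => (n + 1) * i

/-- the coefficients -/
noncomputable def wt (n : ℕ) (c d s : F) : (Fin n ⊕ Fin n) ⊕ Fin 2 → F
  | .inl (.inl _) => 1
  | .inl (.inr i) => ((-1) ^ ((i : ℕ) + 1) * (c * d))⁻¹
  | .inr i => (s ^ (i : ℕ))⁻¹

/-- the family -/
noncomputable def vv (n : ℕ) (c d s : F) (x : (Fin n ⊕ Fin n) ⊕ Fin 2) : AdjoinRoot (PP n c) :=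
  wt n c d s x • AdjoinRoot.root (PP n c) ^ ex n x

theorem ex_lt (n : ℕ) (x : (Fin n ⊕ Fin n) ⊕ Fin 2) : ex n x < 2 * (n + 1) := by
  rcases x with (i | i) | i
  · have := i.2
    simp only [ex]
    omega
  · simp only [ex]
    omega
  · simp only [ex]
    have : (i : ℕ) ≤ 1 := by omega
    nlinarith

theorem om_vv (n : ℕ) (c d s : F) (x y : (Fin n ⊕ Fin n) ⊕ Fin 2) :
    om n c d (vv n c d s x) (vv n c d s y) = wt n c d s x * wt n c d s y *
      (d * ((-1) ^ ex n y * if ex n x + ex n y = 0 then 1 else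
        if ex n x + ex n y = 2 * (n + 1) then c else 0)) := by
  have h1 := ex_lt n x
  have h2 := ex_lt n y
  unfold vv
  rw [map_smul, map_smul, LinearMap.smul_apply, om_pow n c d _ _ (by omega), smul_eq_mul,
    smul_eq_mul]
  ring

theorem gram (n : ℕ) (c s : F) (d : Fin 2 → F) (hc : c ≠ 0) (hd : d 0 ≠ 0) (hs : s ≠ 0)
    (h : (-1) ^ (n + 1) * (c * d 0) = d 1 * s ^ 2) (x y : (Fin n ⊕ Fin n) ⊕ Fin 2) :
    om n c (d 0) (vv n c (d 0) s x) (vv n c (d 0) s y) = GG n d x y := by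
  have hcd : c * d 0 ≠ 0 := mul_ne_zero hc hd
  have hneg : ∀ k : ℕ, ((-1 : F)) ^ k ≠ 0 := fun k => pow_ne_zero k (by simp)
  have hsq : ∀ k : ℕ, ((-1 : F)) ^ k * (-1) ^ k = 1 := fun k => by
    rw [← mul_pow]; simp
  rw [om_vv]
  rcases x with (i | i) | i <;> rcases y with (j | j) | j
  · have hi := i.2
    have hj := j.2
    have e1 : ¬ (ex n (.inl (.inl i)) + ex n (.inl (.inl j)) = 0) := by simp only [ex]; omega
    have e2 : ¬ (ex n (.inl (.inl i)) + ex n (.inl (.inl j)) = 2 * (n + 1)) := by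
      simp only [ex]; omega
    rw [if_neg e1, if_neg e2]
    simp [GG]
  · have hi := i.2
    have hj := j.2
    have e1 : ¬ (ex n (.inl (.inl i)) + ex n (.inl (.inr j)) = 0) := by simp only [ex]; omega
    rw [if_neg e1]
    by_cases hij : i = j
    · subst hij
      have e2 : ex n (.inl (.inl i)) + ex n (.inl (.inr i)) = 2 * (n + 1) := by
        simp only [ex]; omega
      rw [if_pos e2]
      have e3 : ((-1 : F)) ^ (ex n (.inl (.inr i))) = (-1) ^ ((i : ℕ) + 1) := by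
        have h5 : ex n (.inl (.inr i)) + ((i : ℕ) + 1) = 2 * (n + 1) := by
          simp only [ex]; omega
        have h6 : ((-1 : F)) ^ (ex n (.inl (.inr i))) * (-1) ^ ((i : ℕ) + 1) = 1 := by
          rw [← pow_add, h5, pow_mul]; simp
        exact mul_right_cancel₀ (hneg ((i : ℕ) + 1)) (h6.trans (hsq _).symm)
      rw [e3]
      have h7 : GG n d (.inl (.inl i)) (.inl (.inr i)) = 1 := by simp [GG]
      rw [h7]
      simp only [wt]
      have h8 := hneg ((i : ℕ) + 1)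
      field_simp
    · have e2 : ¬ (ex n (.inl (.inl i)) + ex n (.inl (.inr j)) = 2 * (n + 1)) := by
        intro h'
        apply hij
        apply Fin.ext
        simp only [ex] at h'
        omega
      rw [if_neg e2]
      simp [GG, hij]
  · have hj := j.2
    have e1 : ¬ (ex n (.inl (.inl i)) + ex n (.inr j) = 0) := by simp only [ex]; omega
    have e2 : ¬ (ex n (.inl (.inl i)) + ex n (.inr j) = 2 * (n + 1)) := by
      have hi := i.2
      have : (n + 1) * (j : ℕ) ≤ n + 1 := by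
        have : (j : ℕ) ≤ 1 := by omega
        nlinarith
      simp only [ex]; omega
    rw [if_neg e1, if_neg e2]
    simp [GG]
  · have hi := i.2
    have hj := j.2
    have e1 : ¬ (ex n (.inl (.inr i)) + ex n (.inl (.inl j)) = 0) := by simp only [ex]; omega
    rw [if_neg e1]
    by_cases hij : i = j
    · subst hij
      have e2 : ex n (.inl (.inr i)) + ex n (.inl (.inl i)) = 2 * (n + 1) := by
        simp only [ex]; omega
      rw [if_pos e2]
      have h7 : GG n d (.inl (.inr i)) (.inl (.inl i)) = 1 := by simp [GG]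
      rw [h7]
      simp only [wt, ex]
      have h8 := hneg ((i : ℕ) + 1)
      field_simp
    · have e2 : ¬ (ex n (.inl (.inr i)) + ex n (.inl (.inl j)) = 2 * (n + 1)) := by
        intro h'
        apply hij
        apply Fin.ext
        simp only [ex] at h'
        omega
      rw [if_neg e2]
      simp [GG, hij]
  · have hi := i.2
    have hj := j.2
    have e1 : ¬ (ex n (.inl (.inr i)) + ex n (.inl (.inr j)) = 0) := by simp only [ex]; omega
    have e2 : ¬ (ex n (.inl (.inr i)) + ex n (.inl (.inr j)) = 2 * (n + 1)) := by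
      simp only [ex]; omega
    rw [if_neg e1, if_neg e2]
    simp [GG]
  · have hi := i.2
    have hj := j.2
    have e1 : ¬ (ex n (.inl (.inr i)) + ex n (.inr j) = 0) := by simp only [ex]; omega
    have e2 : ¬ (ex n (.inl (.inr i)) + ex n (.inr j) = 2 * (n + 1)) := by
      rcases Fin.exists_fin_two.mp ⟨j, rfl⟩ with h' | h' <;> rw [h'] <;> simp only [ex] <;>
        simp <;> omega
    rw [if_neg e1, if_neg e2]
    simp [GG]
  · have e1 : ¬ (ex n (.inr i) + ex n (.inl (.inl j)) = 0) := by simp only [ex]; omega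
    have e2 : ¬ (ex n (.inr i) + ex n (.inl (.inl j)) = 2 * (n + 1)) := by
      have hj := j.2
      have : (n + 1) * (i : ℕ) ≤ n + 1 := by
        have : (i : ℕ) ≤ 1 := by omega
        nlinarith
      simp only [ex]; omega
    rw [if_neg e1, if_neg e2]
    simp [GG]
  · have hj := j.2
    have e1 : ¬ (ex n (.inr i) + ex n (.inl (.inr j)) = 0) := by simp only [ex]; omega
    have e2 : ¬ (ex n (.inr i) + ex n (.inl (.inr j)) = 2 * (n + 1)) := by
      rcases Fin.exists_fin_two.mp ⟨i, rfl⟩ with h' | h' <;> rw [h'] <;> simp only [ex] <;>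
        simp <;> omega
    rw [if_neg e1, if_neg e2]
    simp [GG]
  · rcases Fin.exists_fin_two.mp ⟨i, rfl⟩ with h1 | h1 <;>
      rcases Fin.exists_fin_two.mp ⟨j, rfl⟩ with h2 | h2 <;> rw [h1, h2]
    · simp [GG, ex, wt]
    · have e2 : ¬ (n + 1 = 2 * (n + 1)) := by omega
      simp [GG, ex, wt, e2]
    · have e2 : ¬ (n + 1 = 2 * (n + 1)) := by omega
      simp [GG, ex, wt, e2]
    · have e2 : n + 1 + (n + 1) = 2 * (n + 1) := by omega
      have e3 : ¬ (n + 1 + (n + 1) = 0) := by omega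
      simp only [GG, ex, wt, fromBlocks_apply₂₂, diagonal_apply_eq, Fin.val_one, mul_one, pow_one]
      rw [if_neg e3, if_pos e2]
      have h3 : d 0 * ((-1) ^ (n + 1) * c) = d 1 * s ^ 2 := by rw [← h]; ring
      rw [h3]
      field_simp

theorem GG_inv (n : ℕ) (d : Fin 2 → F) (hd : ∀ i, d i ≠ 0) :
    GG n d * GG n (fun i => (d i)⁻¹) = 1 := by
  unfold GG
  rw [fromBlocks_multiply, fromBlocks_multiply]
  simp only [Matrix.mul_zero, Matrix.zero_mul, add_zero, zero_add, Matrix.mul_one,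
    fromBlocks_one, diagonal_mul_diagonal]
  have h1 : (fun i => d i * (d i)⁻¹) = fun _ => (1 : F) := by
    funext i
    exact mul_inv_cancel₀ (hd i)
  rw [h1, diagonal_one, fromBlocks_one]

/-- the core lemma -/
theorem core (n : ℕ) (c s : F) (d : Fin 2 → F) (hc : c ≠ 0) (hd : ∀ i, d i ≠ 0) (hs : s ≠ 0)
    (h : (-1) ^ (n + 1) * (c * d 0) = d 1 * s ^ 2) :
    ∃ T : Matrix ((Fin n ⊕ Fin n) ⊕ Fin 2) ((Fin n ⊕ Fin n) ⊕ Fin 2) F,
      (GG n d * T)ᵀ = -(GG n d * T) ∧ T.charpoly = X ^ (2 * (n + 1)) - C c := by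
  have hg := gram n c s d hc (hd 0) hs h
  have hli := indepG (om n c (d 0)) (vv n c (d 0) s) (GG n d) _ hg (GG_inv n d hd)
  have hfin : FiniteDimensional F (AdjoinRoot (PP n c)) := (PP_monic n c).finite_adjoinRoot
  have hrank : finrank F (AdjoinRoot (PP n c)) = 2 * (n + 1) := by
    rw [(AdjoinRoot.powerBasis (PP_monic n c).ne_zero).finrank, AdjoinRoot.powerBasis_dim, PP_deg]
  let b := basisOfLinearIndependentOfCardEqFinrank' (vv n c (d 0) s) hli (by
    rw [hrank]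
    simp only [Fintype.card_sum, Fintype.card_fin]
    omega)
  have hb : ∀ i, b i = vv n c (d 0) s i := fun i => by
    simp [b]
  let M : Module.End F (AdjoinRoot (PP n c)) := LinearMap.mulLeft F (AdjoinRoot.root (PP n c))
  have hM : ∀ x, M x = AdjoinRoot.root (PP n c) * x := fun x => rfl
  have hGT : ∀ i j, (GG n d * LinearMap.toMatrix b b M) i j = om n c (d 0) (b i) (M (b j)) := by
    intro i j
    rw [Matrix.mul_apply]
    conv_rhs => rw [← b.sum_repr (M (b j))]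
    rw [map_sum]
    refine Finset.sum_congr rfl fun k _ => ?_
    rw [map_smul, LinearMap.toMatrix_apply, hb i, hb k, hg, smul_eq_mul, mul_comm]
  refine ⟨LinearMap.toMatrix b b M, ?_, ?_⟩
  · ext i j
    rw [Matrix.transpose_apply, Matrix.neg_apply, hGT, hGT, hM, hM, om_root, om_symm]
  · rw [LinearMap.charpoly_toMatrix]
    have h3 := charpoly_leftMulMatrix (AdjoinRoot.powerBasis (PP_monic n c).ne_zero)
    rw [AdjoinRoot.minpoly_powerBasis_gen_of_monic (PP_monic n c)] at h3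
    refine Eq.trans ?_ h3
    rw [← LinearMap.charpoly_toMatrix M (AdjoinRoot.powerBasis (PP_monic n c).ne_zero).basis]
    rfl

end core

/-! ### two blocks -/

/-- the reindexing -/
def eps (a b : ℕ) : ((Fin a ⊕ Fin a) ⊕ Fin 2) ⊕ ((Fin b ⊕ Fin b) ⊕ Fin 2) ≃
    (Fin (a + b) ⊕ Fin (a + b)) ⊕ Fin 4 :=
  (Equiv.sumSumSumComm _ _ _ _).trans
    (Equiv.sumCongr ((Equiv.sumSumSumComm _ _ _ _).trans
      (Equiv.sumCongr finSumFinEquiv finSumFinEquiv)) (finSumFinEquiv (m := 2) (n := 2)))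

theorem eps1 (a b : ℕ) (i : Fin a) :
    eps a b (.inl (.inl (.inl i))) = .inl (.inl (Fin.castAdd b i)) := rfl

theorem eps2 (a b : ℕ) (i : Fin a) :
    eps a b (.inl (.inl (.inr i))) = .inl (.inr (Fin.castAdd b i)) := rfl

theorem eps3 (a b : ℕ) (i : Fin 2) : eps a b (.inl (.inr i)) = .inr (Fin.castAdd 2 i) := rfl

theorem eps4 (a b : ℕ) (i : Fin b) :
    eps a b (.inr (.inl (.inl i))) = .inl (.inl (Fin.natAdd a i)) := rfl

theorem eps5 (a b : ℕ) (i : Fin b) :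
    eps a b (.inr (.inl (.inr i))) = .inl (.inr (Fin.natAdd a i)) := rfl

theorem eps6 (a b : ℕ) (i : Fin 2) : eps a b (.inr (.inr i)) = .inr (Fin.natAdd 2 i) := rfl

theorem cast_ne_nat {a b : ℕ} (i : Fin a) (j : Fin b) : Fin.castAdd b i ≠ Fin.natAdd a j := by
  intro h
  have := congrArg Fin.val h
  simp only [Fin.val_castAdd, Fin.val_natAdd] at this
  omega

theorem nat_ne_cast {a b : ℕ} (i : Fin a) (j : Fin b) : Fin.natAdd a j ≠ Fin.castAdd b i :=
  (cast_ne_nat i j).symm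

theorem eps_blocks {F : Type} [Field F] (a b : ℕ) (d : Fin 4 → F) :
    (fromBlocks (fromBlocks 0 1 1 0) 0 0 (diagonal d) :
      Matrix ((Fin (a + b) ⊕ Fin (a + b)) ⊕ Fin 4) ((Fin (a + b) ⊕ Fin (a + b)) ⊕ Fin 4) F).submatrix
        (eps a b) (eps a b) =
      fromBlocks (GG a (fun i => d (Fin.castAdd 2 i))) 0 0 (GG b (fun i => d (Fin.natAdd 2 i))) := by
  ext x y
  have k1 : ∀ i j : Fin 2, ((Fin.castAdd 2 i : Fin 4) = Fin.natAdd 2 j) = False :=
    fun i j => eq_false (cast_ne_nat i j)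
  have k2 : ∀ i j : Fin 2, ((Fin.natAdd 2 i : Fin 4) = Fin.castAdd 2 j) = False :=
    fun i j => eq_false (nat_ne_cast j i)
  have k3 : ∀ i j : Fin 2, ((Fin.castAdd 2 i : Fin 4) = Fin.castAdd 2 j) = (i = j) :=
    fun i j => propext (by revert i j; decide)
  have k4 : ∀ i j : Fin 2, ((Fin.natAdd 2 i : Fin 4) = Fin.natAdd 2 j) = (i = j) :=
    fun i j => propext (by revert i j; decide)
  rcases x with ((i | i) | i) | ((i | i) | i) <;> rcases y with ((j | j) | j) | ((j | j) | j) <;>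
    simp only [submatrix_apply, eps1, eps2, eps3, eps4, eps5, eps6, GG, fromBlocks_apply₁₁,
      fromBlocks_apply₁₂, fromBlocks_apply₂₁, fromBlocks_apply₂₂, Matrix.zero_apply,
      Matrix.one_apply, Matrix.diagonal_apply, Fin.castAdd_inj, Fin.natAdd_inj, cast_ne_nat,
      nat_ne_cast, if_false, k1, k2, k3, k4]

/-- the choice of the constants -/
theorem choose_c (ℓ : ℕ) [Fact ℓ.Prime] (n : ℕ) (x y : ℚ_[ℓ]) (hx : x ≠ 0) (hy : y ≠ 0)
    (h : Odd (Padic.valuation (x * y))) :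
    ∃ c s : ℚ_[ℓ], c ≠ 0 ∧ s ≠ 0 ∧ ‖c‖ = (ℓ : ℝ)⁻¹ ∧ (-1) ^ (n + 1) * (c * x) = y * s ^ 2 := by
  obtain ⟨b, hb, hn⟩ := Pool.Agent.Q91.OI.FORM1.expo ℓ x y hx hy h
  have hneg : ((-1 : ℚ_[ℓ])) ^ (n + 1) ≠ 0 := pow_ne_zero _ (by simp)
  have hsq : ((-1 : ℚ_[ℓ])) ^ (n + 1) * (-1) ^ (n + 1) = 1 := by
    rw [← mul_pow]; simp
  refine ⟨(-1) ^ (n + 1) * (y / x) * b ^ 2, b, ?_, hb, ?_, ?_⟩
  · exact mul_ne_zero (mul_ne_zero hneg (div_ne_zero hy hx)) (pow_ne_zero 2 hb)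
  · rw [← hn]
    have h1 : ‖((-1 : ℚ_[ℓ])) ^ (n + 1)‖ = 1 := by
      rw [norm_pow, norm_neg, norm_one, one_pow]
    have h2 : -(y / x) * b * b = -((y / x) * b ^ 2) := by ring
    rw [h2, norm_neg, mul_assoc, norm_mul, h1, one_mul]
  · calc (-1) ^ (n + 1) * ((-1) ^ (n + 1) * (y / x) * b ^ 2 * x) =
        ((-1) ^ (n + 1) * (-1) ^ (n + 1)) * (y / x * x) * b ^ 2 := by ring
      _ = y * b ^ 2 := by rw [hsq, one_mul, div_mul_cancel₀ _ hx]

theorem coprime (ℓ : ℕ) [Fact ℓ.Prime] (a b : ℕ) (c₁ c₂ : ℚ_[ℓ]) (ha : 0 < a) (hb : 0 < b)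
    (h1 : ‖c₁‖ = (ℓ : ℝ)⁻¹) (h2 : ‖c₂‖ = (ℓ : ℝ)⁻¹) (h : a = b → c₁ ≠ c₂) :
    IsCoprime ((X : ℚ_[ℓ][X]) ^ (2 * a) - C c₁) (X ^ (2 * b) - C c₂) := by
  have hl1 : (1 : ℝ) < ℓ := by exact_mod_cast (Fact.out : ℓ.Prime).one_lt
  refine (Polynomial.isCoprime_iff_aeval_ne_zero_of_isAlgClosed ℚ_[ℓ] (AlgebraicClosure ℚ_[ℓ])
    _ _).mpr ?_
  intro y
  by_contra hcon
  push Not at hcon
  obtain ⟨e1, e2⟩ := hcon
  rw [map_sub, map_pow, aeval_X, aeval_C, sub_eq_zero] at e1 e2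
  have e3 : algebraMap ℚ_[ℓ] (AlgebraicClosure ℚ_[ℓ]) (c₁ ^ b) =
      algebraMap ℚ_[ℓ] (AlgebraicClosure ℚ_[ℓ]) (c₂ ^ a) := by
    rw [map_pow, map_pow, ← e1, ← e2, ← pow_mul, ← pow_mul]
    congr 1
    ring
  have e4 := (algebraMap ℚ_[ℓ] (AlgebraicClosure ℚ_[ℓ])).injective e3
  have e5 : ((ℓ : ℝ)⁻¹) ^ b = ((ℓ : ℝ)⁻¹) ^ a := by
    have := congrArg norm e4
    rwa [norm_pow, norm_pow, h1, h2] at this
  have hab : a = b := by
    rw [inv_pow, inv_pow, _root_.inv_inj] at e5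
    exact (pow_right_injective₀ (by linarith) hl1.ne' e5).symm
  subst hab
  exact h rfl ((algebraMap ℚ_[ℓ] (AlgebraicClosure ℚ_[ℓ])).injective (e1.symm.trans e2))

/-- task FDA: two ramified blocks -/
theorem t (hWE : Pool.Agent.Y142.ZD.S_WE) : Pool.Agent.Y142.ZD.S_FDA := by
  intro ℓ _ hℓ a b N ha hb hN B hB hdet hev
  obtain ⟨a', rfl⟩ : ∃ a', a = a' + 1 := ⟨a - 1, by omega⟩
  obtain ⟨b', rfl⟩ : ∃ b', b = b' + 1 := ⟨b - 1, by omega⟩
  obtain ⟨⟨C0, D0, d, g1, g2, hd, ho1, ho2, hform⟩, -⟩ :=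
    hWE ℓ hℓ (a' + b') N (by omega) B hB hdet hev
  -- the constants
  obtain ⟨c₂, s₂, hc2, hs2, hn2, hr2⟩ := choose_c ℓ b' (d 2) (d 3) (hd 2) (hd 3) ho2
  obtain ⟨c₁, s₁, hc1, hs1, hn1, hr1, hne⟩ : ∃ c s : ℚ_[ℓ], c ≠ 0 ∧ s ≠ 0 ∧ ‖c‖ = (ℓ : ℝ)⁻¹ ∧
      (-1) ^ (a' + 1) * (c * d 0) = d 1 * s ^ 2 ∧ c ≠ c₂ := by
    obtain ⟨c₁, s₁, hc1, hs1, hn1, hr1⟩ := choose_c ℓ a' (d 0) (d 1) (hd 0) (hd 1) ho1
    by_cases hcc : c₁ = c₂
    · refine ⟨4 * c₁, 2 * s₁, mul_ne_zero (by norm_num) hc1, mul_ne_zero (by norm_num) hs1, ?_, ?_,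
        ?_⟩
      · have h4 : ‖(4 : ℚ_[ℓ])‖ = 1 := by
          have h2 : ‖((2 : ℕ) : ℚ_[ℓ])‖ = 1 := by
            rw [Padic.norm_natCast_eq_one_iff]
            exact (Nat.coprime_primes (Fact.out : ℓ.Prime) Nat.prime_two).mpr hℓ
          have h3 : (4 : ℚ_[ℓ]) = ((2 : ℕ) : ℚ_[ℓ]) * ((2 : ℕ) : ℚ_[ℓ]) := by norm_num
          rw [h3, norm_mul, h2, one_mul]
        rw [norm_mul, h4, one_mul, hn1]
      · linear_combination 4 * hr1
      · rw [← hcc]
        intro h'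
        have h3 : (3 : ℚ_[ℓ]) * c₁ = 0 := by linear_combination h'
        exact hc1 ((mul_eq_zero.mp h3).resolve_left (by norm_num))
    · exact ⟨c₁, s₁, hc1, hs1, hn1, hr1, hcc⟩
  -- the blocks
  obtain ⟨T1, hT1, hch1⟩ := core a' c₁ s₁ (fun i => d (Fin.castAdd 2 i)) hc1 (fun i => hd _) hs1 hr1
  obtain ⟨T2, hT2, hch2⟩ := core b' c₂ s₂ (fun i => d (Fin.natAdd 2 i)) hc2 (fun i => hd _) hs2 hr2
  obtain ⟨C', hC'⟩ : ∃ C' : Matrix (Fin N) (((Fin a' ⊕ Fin a') ⊕ Fin 2) ⊕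
      ((Fin b' ⊕ Fin b') ⊕ Fin 2)) ℚ_[ℓ], C' = C0.submatrix id (eps a' b') := ⟨_, rfl⟩
  obtain ⟨D', hD'⟩ : ∃ D' : Matrix (((Fin a' ⊕ Fin a') ⊕ Fin 2) ⊕
      ((Fin b' ⊕ Fin b') ⊕ Fin 2)) (Fin N) ℚ_[ℓ], D' = D0.submatrix (eps a' b') id := ⟨_, rfl⟩
  have k1 : C' * D' = 1 := by
    rw [hC', hD', Matrix.submatrix_mul_equiv, g1, Matrix.submatrix_id_id]
  have k2 : D' * C' = 1 := by
    rw [hC', hD', ← Matrix.submatrix_mul D0 C0 _ id _ Function.bijective_id, g2,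
      Matrix.submatrix_one_equiv]
  have k3 : C'ᵀ * B * C' = fromBlocks (GG a' (fun i => d (Fin.castAdd 2 i))) 0 0
      (GG b' (fun i => d (Fin.natAdd 2 i))) := by
    rw [← eps_blocks, ← hform, hC']
    ext i j
    rfl
  have hcard : Fintype.card (Fin N) = Fintype.card (((Fin a' ⊕ Fin a') ⊕ Fin 2) ⊕
      ((Fin b' ⊕ Fin b') ⊕ Fin 2)) := by
    simp only [Fintype.card_sum, Fintype.card_fin]
    omega
  have hchar : (C' * fromBlocks T1 0 0 T2 * D').charpoly =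
      (X ^ (2 * (a' + 1)) - C c₁) * (X ^ (2 * (b' + 1)) - C c₂) := by
    rw [Pool.Agent.Q91.OI.FORM1.charpoly_sim C' D' k2 hcard, Matrix.charpoly_fromBlocks_zero₁₂,
      hch1, hch2]
  refine ⟨C' * fromBlocks T1 0 0 T2 * D', c₁, c₂, ?_, hn1, hn2, hchar, ?_⟩
  · refine Pool.Agent.Q91.OI.FORM1.skew_sim B C' D' k1 _ ?_
    rw [k3, fromBlocks_multiply, fromBlocks_transpose, fromBlocks_neg]
    simp only [Matrix.mul_zero, Matrix.zero_mul, add_zero, zero_add, Matrix.transpose_zero,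
      neg_zero]
    rw [hT1, hT2]
  · rw [hchar]
    refine Separable.mul (separable_X_pow_sub_C _ ?_ hc1) (separable_X_pow_sub_C _ ?_ hc2)
      (coprime ℓ (a' + 1) (b' + 1) c₁ c₂ ha hb hn1 hn2 fun _ => hne)
    · exact_mod_cast (by omega : 2 * (a' + 1) ≠ 0)
    · exact_mod_cast (by omega : 2 * (b' + 1) ≠ 0)

end Pool.Agent.Q265.OI.FDA
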